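import Pool.Agent.W477.CL.Stms

/-!
# Project OC: one-point extensions
-/

set_option maxHeartbeats 1000000
set_option linter.all false

namespace Pool.Agent.W762.OC

open FirstOrder FirstOrder.Language
open Pool.Agent.Helper672.ZFA hiding IsOrdPair IsPair Mem
open Pool.Agent.H310
open Pool.Agent.W924
open Pool.Agent.W477.CL

universe u

theorem ext_holds : P_EXT.{u} := by
  intro M _ _ c' c p x hEP hp hx
  obtain ⟨hfin, hfun, hinj, hcl⟩ := hp
  have hA : ∀ y : INat M, y ∈ sep M (fun y : INat M => ∃ x' : INat M, (x', y) ∈ p) ↔
      ∃ x', (x', y) ∈ p := fun y => mem_sep (by (repeat' (first | with_reducible exact IntF.id | with_reducible exact IntF.fst' | with_reducible exact IntF.snd' | with_reducible exact IntF.const _ | with_reducible exact Int.const _ | assumption | with_reducible apply Int.and | with_reducible apply Int.or | with_reducible apply Int.not | with_reducible apply Int.imp | with_reducible apply Int.iff | with_reducible apply Int.ne | with_reducible apply Int.eq | with_reducible apply Int.mem | with_reducible apply Int.subset | with_reducible apply Int.ltN | with_reducible apply Int.leN | with_reducible apply Int.fin | with_reducible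 apply Int.unique | with_reducible apply Int.all | with_reducible apply Int.ex | with_reducible apply IntF.fst | with_reducible apply IntF.snd | with_reducible apply IntF.app | with_reducible apply IntF.ite | with_reducible apply IntF.sep | with_reducible apply IntF.lam | with_reducible apply IntF.insert | with_reducible apply IntF.singleton | with_reducible apply IntF.union | with_reducible apply IntF.inter | with_reducible apply IntF.sdiff | with_reducible apply IntF.isUnion | with_reducible apply IntF.iimage | with_reducible apply IntF.the | with_reducible apply IntF.irec | with_reducible_and_instances apply IntF.mul | with_reducible_and_instances apply IntF.inv | with_reducible_and_instances apply IntF.smul | with_reducible apply IntF.succ | with_reducible apply IntF.val | with_reducible apply IntF.mk | (with_reducible refine Int.comp ?_ ?_; assumption) | (with_reducible refine Int.comp₂ ?_ ?_ ?_; assumption) | (with_reducible refine Int.comp₃ ?_ ?_ ?_ ?_; assumption) | (with_reducible refine Int.comp₄ ?_ ?_ ?_ ?_ ?_; assumption) | (with_reducible refine IntF.comp ?_ ?_; assumption) | (with_reducible refine IntF.comp₂ ?_ ?_ ?_; assumption) |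 (with_reducible refine Helper672.ZFA.IntF.comp₃ ?_ ?_ ?_ ?_; assumption) | with_reducible apply IntF.pair)))
  have hφ : ∀ C : IPow M (INat M), C ∈ sep M (fun C : IPow M (INat M) =>
      ∃ B : IPow M (INat M), (∀ x', x' ∈ B → ∃ y, y ∈ C ∧ (x', y) ∈ p) ∧
        (∀ y, y ∈ C → ∃ x', x' ∈ B ∧ (x', y) ∈ p) ∧ insert x B ∈ c') ↔
      ∃ B : IPow M (INat M), (∀ x', x' ∈ B → ∃ y, y ∈ C ∧ (x', y) ∈ p) ∧
        (∀ y, y ∈ C → ∃ x', x' ∈ B ∧ (x', y) ∈ p) ∧ insert x B ∈ c' :=
    fun C => mem_sep (by (repeat' (first | with_reducible exact IntF.id | with_reducible exact IntF.fst' | with_reducible exact IntF.snd' | with_reducible exact IntF.const _ | with_reducible exact Int.const _ | assumption | with_reducible apply Int.and | with_reducible apply Int.or | with_reducible apply Int.not | with_reducible apply Int.imp | with_reducible apply Int.iff | with_reducible apply Int.ne | with_reducible apply Int.eq | with_reducible apply Int.mem | with_reducible apply Int.subset | with_reducible apply Int.ltN | with_reducible apply Int.leN | with_reducible apply Int.fin | with_reducible apply Int.unique | with_reducible apply Int.all | with_reducible apply Int.ex | with_reducible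 apply IntF.fst | with_reducible apply IntF.snd | with_reducible apply IntF.app | with_reducible apply IntF.ite | with_reducible apply IntF.sep | with_reducible apply IntF.lam | with_reducible apply IntF.insert | with_reducible apply IntF.singleton | with_reducible apply IntF.union | with_reducible apply IntF.inter | with_reducible apply IntF.sdiff | with_reducible apply IntF.isUnion | with_reducible apply IntF.iimage | with_reducible apply IntF.the | with_reducible apply IntF.irec | with_reducible_and_instances apply IntF.mul | with_reducible_and_instances apply IntF.inv | with_reducible_and_instances apply IntF.smul | with_reducible apply IntF.succ | with_reducible apply IntF.val | with_reducible apply IntF.mk | (with_reducible refine Int.comp ?_ ?_; assumption) | (with_reducible refine Int.comp₂ ?_ ?_ ?_; assumption) | (with_reducible refine Int.comp₃ ?_ ?_ ?_ ?_; assumption) | (with_reducible refine Int.comp₄ ?_ ?_ ?_ ?_ ?_; assumption) | (with_reducible refine IntF.comp ?_ ?_; assumption) | (with_reducible refine IntF.comp₂ ?_ ?_ ?_; assumption) | (with_reducible refine Helper672.ZFA.IntF.comp₃ ?_ ?_ ?_ ?_; assumption) | with_reducible apply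 IntF.pair)))
  generalize hAA : sep M (fun y : INat M => ∃ x' : INat M, (x', y) ∈ p) = A at hA
  generalize hφφ : sep M (fun C : IPow M (INat M) =>
      ∃ B : IPow M (INat M), (∀ x', x' ∈ B → ∃ y, y ∈ C ∧ (x', y) ∈ p) ∧
        (∀ y, y ∈ C → ∃ x', x' ∈ B ∧ (x', y) ∈ p) ∧ insert x B ∈ c') = φ at hφ
  have hAf : IFin A := by
    have hs : IntF M (fun q : INat M × INat M => q.2) := IntF.snd'
    refine (hfin.image hs).subset fun y hy => ?_
    obtain ⟨x', hx'⟩ := (hA y).1 hy
    exact (mem_iimage hs).2 ⟨(x', y), hx', rfl⟩
  obtain ⟨z, hz, hzB⟩ := hEP A φ hAf
  have hzp : ∀ a, ¬ (a, z) ∈ p := fun a ha => hz ((hA z).2 ⟨a, ha⟩)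
  refine ⟨z, hfin.insert _, ?_, ?_, ?_⟩
  · intro a y y' h1 h2
    rcases mem_insert.1 h1 with h1 | h1 <;> rcases mem_insert.1 h2 with h2 | h2
    · rw [(Prod.mk.inj h1).2, (Prod.mk.inj h2).2]
    · rw [(Prod.mk.inj h1).1] at h2
      exact absurd h2 (hx _)
    · rw [(Prod.mk.inj h2).1] at h1
      exact absurd h1 (hx _)
    · exact hfun a y y' h1 h2
  · intro a a' y h1 h2
    rcases mem_insert.1 h1 with h1 | h1 <;> rcases mem_insert.1 h2 with h2 | h2
    · rw [(Prod.mk.inj h1).1, (Prod.mk.inj h2).1]
    · rw [(Prod.mk.inj h1).2] at h2
      exact absurd h2 (hzp _)
    · rw [(Prod.mk.inj h2).2] at h1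
      exact absurd h1 (hzp _)
    · exact hinj a a' y h1 h2
  · intro B C hB h1 h2
    by_cases hxB : x ∈ B
    · have hzC : z ∈ C := by
        obtain ⟨y, hy, hxy⟩ := h1 x hxB
        rcases mem_insert.1 hxy with h | h
        · rw [← (Prod.mk.inj h).2]
          exact hy
        · exact absurd h (hx _)
      have hB₀ : ∀ a : INat M, a ∈ sep M (fun a : INat M => a ∈ B ∧ a ≠ x) ↔ a ∈ B ∧ a ≠ x :=
        fun a => mem_sep (by (repeat' (first | with_reducible exact IntF.id | with_reducible exact IntF.fst' | with_reducible exact IntF.snd' | with_reducible exact IntF.const _ | with_reducible exact Int.const _ | assumption | with_reducible apply Int.and | with_reducible apply Int.or | with_reducible apply Int.not | with_reducible apply Int.imp | with_reducible apply Int.iff | with_reducible apply Int.ne | with_reducible apply Int.eq | with_reducible apply Int.mem | with_reducible apply Int.subset | with_reducible apply Int.ltN | with_reducible apply Int.leN | with_reducible apply Int.fin | with_reducible apply Int.unique | with_reducible apply Int.all | with_reducible apply Int.ex | with_reducible apply IntF.fst | with_reducible apply IntF.snd | with_reducible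 apply IntF.app | with_reducible apply IntF.ite | with_reducible apply IntF.sep | with_reducible apply IntF.lam | with_reducible apply IntF.insert | with_reducible apply IntF.singleton | with_reducible apply IntF.union | with_reducible apply IntF.inter | with_reducible apply IntF.sdiff | with_reducible apply IntF.isUnion | with_reducible apply IntF.iimage | with_reducible apply IntF.the | with_reducible apply IntF.irec | with_reducible_and_instances apply IntF.mul | with_reducible_and_instances apply IntF.inv | with_reducible_and_instances apply IntF.smul | with_reducible apply IntF.succ | with_reducible apply IntF.val | with_reducible apply IntF.mk | (with_reducible refine Int.comp ?_ ?_; assumption) | (with_reducible refine Int.comp₂ ?_ ?_ ?_; assumption) | (with_reducible refine Int.comp₃ ?_ ?_ ?_ ?_; assumption) | (with_reducible refine Int.comp₄ ?_ ?_ ?_ ?_ ?_; assumption) | (with_reducible refine IntF.comp ?_ ?_; assumption) | (with_reducible refine IntF.comp₂ ?_ ?_ ?_; assumption) | (with_reducible refine Helper672.ZFA.IntF.comp₃ ?_ ?_ ?_ ?_; assumption) | with_reducible apply IntF.pair)))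
      have hC₀ : ∀ a : INat M, a ∈ sep M (fun a : INat M => a ∈ C ∧ a ≠ z) ↔ a ∈ C ∧ a ≠ z :=
        fun a => mem_sep (by (repeat' (first | with_reducible exact IntF.id | with_reducible exact IntF.fst' | with_reducible exact IntF.snd' | with_reducible exact IntF.const _ | with_reducible exact Int.const _ | assumption | with_reducible apply Int.and | with_reducible apply Int.or | with_reducible apply Int.not | with_reducible apply Int.imp | with_reducible apply Int.iff | with_reducible apply Int.ne | with_reducible apply Int.eq | with_reducible apply Int.mem | with_reducible apply Int.subset | with_reducible apply Int.ltN | with_reducible apply Int.leN | with_reducible apply Int.fin | with_reducible apply Int.unique | with_reducible apply Int.all | with_reducible apply Int.ex | with_reducible apply IntF.fst | with_reducible apply IntF.snd | with_reducible apply IntF.app | with_reducible apply IntF.ite | with_reducible apply IntF.sep | with_reducible apply IntF.lam | with_reducible apply IntF.insert | with_reducible apply IntF.singleton | with_reducible apply IntF.union | with_reducible apply IntF.inter | with_reducible apply IntF.sdiff | with_reducible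 apply IntF.isUnion | with_reducible apply IntF.iimage | with_reducible apply IntF.the | with_reducible apply IntF.irec | with_reducible_and_instances apply IntF.mul | with_reducible_and_instances apply IntF.inv | with_reducible_and_instances apply IntF.smul | with_reducible apply IntF.succ | with_reducible apply IntF.val | with_reducible apply IntF.mk | (with_reducible refine Int.comp ?_ ?_; assumption) | (with_reducible refine Int.comp₂ ?_ ?_ ?_; assumption) | (with_reducible refine Int.comp₃ ?_ ?_ ?_ ?_; assumption) | (with_reducible refine Int.comp₄ ?_ ?_ ?_ ?_ ?_; assumption) | (with_reducible refine IntF.comp ?_ ?_; assumption) | (with_reducible refine IntF.comp₂ ?_ ?_ ?_; assumption) | (with_reducible refine Helper672.ZFA.IntF.comp₃ ?_ ?_ ?_ ?_; assumption) | with_reducible apply IntF.pair)))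
      generalize sep M (fun a : INat M => a ∈ B ∧ a ≠ x) = B₀ at hB₀
      generalize sep M (fun a : INat M => a ∈ C ∧ a ≠ z) = C₀ at hC₀
      have eB : insert x B₀ = B := by
        apply IPow.ext'
        intro a
        rw [mem_insert, hB₀]
        constructor
        · rintro (h | h)
          · rw [h]; exact hxB
          · exact h.1
        · intro h
          by_cases ha : a = x
          · exact Or.inl ha
          · exact Or.inr ⟨h, ha⟩
      have eC : insert z C₀ = C := by
        apply IPow.ext'
        intro a
        rw [mem_insert, hC₀]
        constructor
        · rintro (h | h)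
          · rw [h]; exact hzC
          · exact h.1
        · intro h
          by_cases ha : a = z
          · exact Or.inl ha
          · exact Or.inr ⟨h, ha⟩
      have g1 : ∀ a, a ∈ B₀ → ∃ y, y ∈ C₀ ∧ (a, y) ∈ p := by
        intro a ha
        obtain ⟨ha1, ha2⟩ := (hB₀ a).1 ha
        obtain ⟨y, hy, hay⟩ := h1 a ha1
        rcases mem_insert.1 hay with h | h
        · exact absurd (Prod.mk.inj h).1 ha2
        · refine ⟨y, (hC₀ y).2 ⟨hy, ?_⟩, h⟩
          intro hyz
          rw [hyz] at h
          exact hzp a h
      have g2 : ∀ y, y ∈ C₀ → ∃ a, a ∈ B₀ ∧ (a, y) ∈ p := by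
        intro y hy
        obtain ⟨hy1, hy2⟩ := (hC₀ y).1 hy
        obtain ⟨a, ha, hay⟩ := h2 y hy1
        rcases mem_insert.1 hay with h | h
        · exact absurd (Prod.mk.inj h).2 hy2
        · refine ⟨a, (hB₀ a).2 ⟨ha, ?_⟩, h⟩
          intro hax
          rw [hax] at h
          exact hx y h
      have hCA : C₀ ⊆ A := by
        intro y hy
        obtain ⟨a, -, ha⟩ := g2 y hy
        exact (hA y).2 ⟨a, ha⟩
      have key := hzB C₀ hCA
      rw [eC] at key
      rw [key, hφ]
      constructor
      · intro h
        exact ⟨B₀, g1, g2, by rw [eB]; exact h⟩
      · rintro ⟨B₁, k1, k2, h⟩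
        have hBB : B₁ = B₀ := by
          apply IPow.ext'
          intro a
          constructor
          · intro ha
            obtain ⟨y, hy, hay⟩ := k1 a ha
            obtain ⟨a', ha', ha'y⟩ := g2 y hy
            rw [hinj a a' y hay ha'y]
            exact ha'
          · intro ha
            obtain ⟨y, hy, hay⟩ := g1 a ha
            obtain ⟨a', ha', ha'y⟩ := k2 y hy
            rw [hinj a a' y hay ha'y]
            exact ha'
        rw [hBB, eB] at h
        exact h
    · have hzC : ¬ z ∈ C := by
        intro h
        obtain ⟨a, ha, haz⟩ := h2 z h
        rcases mem_insert.1 haz with h | h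
        · apply hxB
          rw [← (Prod.mk.inj h).1]
          exact ha
        · exact hzp a h
      refine hcl B C hB ?_ ?_
      · intro a ha
        obtain ⟨y, hy, hay⟩ := h1 a ha
        rcases mem_insert.1 hay with h | h
        · exfalso
          apply hxB
          rw [← (Prod.mk.inj h).1]
          exact ha
        · exact ⟨y, hy, h⟩
      · intro y hy
        obtain ⟨a, ha, hay⟩ := h2 y hy
        rcases mem_insert.1 hay with h | h
        · exfalso
          apply hxB
          rw [← (Prod.mk.inj h).1]
          exact ha
        · exact ⟨a, ha, h⟩

end Pool.Agent.W762.OC
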